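import Pool.Agent.H40.EGD.Targets

/-!
# Invariant sets of the billiard map, row RRR: composition of two reflections of directions
-/

set_option autoImplicit false

namespace Pool.Agent.H81.EGD

open MeasureTheory Set Metric Filter Topology Pool.Agent.H93.BL
open Pool.Agent.H93.EN (av md rf)
open Pool.Agent.H93.EG (InvG T_MAIN)
open Pool.Agent.H40.EGD

theorem RRR_conj_exp (θ : ℝ) : (starRingEnd ℂ) (Complex.exp ((θ : ℂ) * Complex.I)) =
    Complex.exp (-((θ : ℂ) * Complex.I)) := by
  rw [← Complex.exp_conj, map_mul, Complex.conj_ofReal, Complex.conj_I, mul_neg]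

theorem RRR_rf_exp (b : ℂ) (hb : ‖b‖ = 1) (θ : ℝ) :
    rf b (Complex.exp ((θ : ℂ) * Complex.I)) =
      Complex.exp (((2 * Complex.arg b - θ : ℝ) : ℂ) * Complex.I) := by
  have hb' : b = Complex.exp ((Complex.arg b : ℂ) * Complex.I) := by
    have h1 := Complex.norm_mul_exp_arg_mul_I b
    rw [hb, Complex.ofReal_one, one_mul] at h1
    exact h1.symm
  have h2 : rf b (Complex.exp ((θ : ℂ) * Complex.I)) =
      b ^ 2 * Complex.exp (-((θ : ℂ) * Complex.I)) := by
    unfold rf
    rw [RRR_conj_exp]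
  have h3 : b ^ 2 = Complex.exp ((2 : ℂ) * ((Complex.arg b : ℂ) * Complex.I)) := by
    have h4 : b ^ 2 = Complex.exp ((Complex.arg b : ℂ) * Complex.I) ^ 2 := congrArg (· ^ 2) hb'
    rw [h4, ← Complex.exp_nat_mul]
    push_cast
    rfl
  rw [h2, h3, ← Complex.exp_add]
  congr 1
  push_cast
  ring

theorem RRR_rf_rf (a b w : ℂ) (hb : ‖b‖ = 1) : rf a (rf b w) = (a / b) ^ 2 * w := by
  have hb0 : b ≠ 0 := by
    rintro rfl
    rw [norm_zero] at hb
    exact zero_ne_one hb
  have h1 : (starRingEnd ℂ) b * b = 1 := by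
    rw [← Complex.normSq_eq_conj_mul_self, Complex.normSq_eq_norm_sq, hb]
    norm_num
  have h2 : (starRingEnd ℂ) b = b⁻¹ := eq_inv_of_mul_eq_one_left h1
  unfold rf
  rw [map_mul, map_pow, Complex.conj_conj, h2, div_pow, inv_pow, div_eq_mul_inv, mul_assoc]

theorem RRR : T_RRR := by
  intro a b W _ hb hA hB
  have hT : MeasurePreserving (fun θ : ℝ => 2 * Complex.arg b - θ) volume volume :=
    Measure.measurePreserving_sub_left volume (2 * Complex.arg b)
  have hA' := hT.quasiMeasurePreserving.ae hA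
  filter_upwards [hA', hB] with θ h1 h2
  rw [← RRR_rf_exp b hb θ] at h1
  rw [← RRR_rf_rf a b _ hb]
  exact h2.trans h1

end Pool.Agent.H81.EGD
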